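import Pool.Agent.H68.L.R_seed8.Y703.CQ.Stm
import Pool.Agent.H68.L.R_seed8.Y669.Mer

set_option autoImplicit false

/-!
# Project CQ, the statement MER: Mertens' theorem modulo 56
-/

namespace Pool.Agent.Y405.CQ

open Finset Filter

/-- Mertens' theorem in arithmetic progressions -/
theorem mertens_ap (q : ℕ) (hq : 1 ≤ q) (a : ℕ) (ha : a < q) (hc : a.Coprime q) :
    ∃ C : ℝ, 0 ≤ C ∧ ∀ x : ℕ, 3 ≤ x →
      |∑ p ∈ (Icc 1 x).filter (fun p => p.Prime ∧ p % q = a), (1 : ℝ) / p -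
        1 / (Nat.totient q : ℝ) * Real.log (Real.log x)| ≤ C := by
  obtain ⟨x0, hx0⟩ := Pool.Agent.H387R2.Uni.siegel
  have hlogx : Tendsto (fun x : ℕ => Real.log (x:ℝ)) atTop atTop :=
    Real.tendsto_log_atTop.comp tendsto_natCast_atTop_atTop
  obtain ⟨x1, hx1⟩ := eventually_atTop.1 (hlogx.eventually_ge_atTop (q : ℝ))
  refine Pool.Agent.Y669.mer_of (fun p : ℕ => p % q = a) (1 / (Nat.totient q : ℝ)) 1 one_pos
    (max x0 x1) fun x hx => ?_
  have hxx0 : x0 ≤ x := (le_max_left _ _).trans hx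
  have hxx1 : x1 ≤ x := (le_max_right _ _).trans hx
  have hqx : (q : ℝ) ≤ Real.log x ^ 2 := by
    have h1 := hx1 x hxx1
    have h2 : (1 : ℝ) ≤ q := by exact_mod_cast hq
    nlinarith
  have h3 := hx0 x hxx0 q hq hqx a ha hc
  have h4 : (((Icc 1 x).filter (fun p => p.Prime ∧ p % q = a)).card : ℝ) = H343E.piAP x q a := by
    unfold H343E.piAP
    congr 2
    ext p
    rw [mem_filter, mem_filter, Nat.ModEq, Nat.mod_eq_of_lt ha]
  rw [h4, one_mul, one_div_mul_eq_div]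
  exact h3

theorem t_MER : Pool.Agent.Y703.CQ.S_MER := by
  intro a ha
  have ha' : (a % 56).Coprime 56 := by
    rw [Nat.coprime_iff_gcd_eq_one, ← Nat.gcd_rec, Nat.gcd_comm]
    exact ha
  obtain ⟨C, -, hC⟩ := mertens_ap 56 (by norm_num) (a % 56) (Nat.mod_lt _ (by norm_num)) ha'
  refine ⟨C, fun y hy => ?_⟩
  have h1 := hC y hy
  have h2 : Nat.totient 56 = 24 := by decide
  rw [h2] at h1
  have h3 : (range (y + 1)).filter (fun p => p.Prime ∧ p % 56 = a % 56) =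
      (Icc 1 y).filter (fun p => p.Prime ∧ p % 56 = a % 56) := by
    ext p
    rw [mem_filter, mem_filter, mem_range, mem_Icc]
    constructor
    · rintro ⟨g1, g2, g3⟩
      exact ⟨⟨g2.one_lt.le, by omega⟩, g2, g3⟩
    · rintro ⟨⟨g0, g1⟩, g2, g3⟩
      exact ⟨by omega, g2, g3⟩
  rw [h3]
  exact_mod_cast h1

end Pool.Agent.Y405.CQ
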